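import Mathlib
import Pool.Agent.H414G.Sched

set_option autoImplicit false

open Set Filter
open scoped Cardinal

namespace Pool.Agent.Results.MP_820b44_gt.ClassQN

open Pool.Agent.H414G

/-- The product of a space with fewer than `𝔡` points and a space in one of the classes generated
from the property `QN` satisfies `S₁(Γ, O)`. -/
theorem result {A Y : Type} [TopologicalSpace A] [TopologicalSpace Y] (s : Scheme)
    (hY : InClass QN s (univ : Set Y)) (hA : #A < dNum) : SOneGammaO (A × Y) :=
  prod_class_qn hY hA

end Pool.Agent.Results.MP_820b44_gt.ClassQN
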