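import Mathlib
import Pool.Agent.H414G.Filt

set_option autoImplicit false

open Set Filter
open scoped Cardinal

namespace Pool.Agent.Results.MP_820b44_gt.SmallFactor

open Pool.Agent.H414G

/-- The product of a space with fewer than `max (cov(M)) (min 𝔡 𝔤_f)` points and a `T₁` space with
the `γ`-property satisfies `S₁(Γ, O)`. -/
theorem result {A Y : Type} [TopologicalSpace A] [TopologicalSpace Y] [T1Space Y]
    (hY : GammaProperty Y) (hA : #A < max covM (min dNum gfNum)) : SOneGammaO (A × Y) := by
  rcases lt_max_iff.1 hA with h | h
  · exact prod_cov hY h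
  · exact prod_gf hY h

end Pool.Agent.Results.MP_820b44_gt.SmallFactor
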